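import Pool.Agent.Helper52.SM.Goals

/-!
# Project SM, packet LPM: the loop
-/

namespace Pool.Agent.Helper96.SM

open Pool.Agent.Helper81.CC Pool.Agent.Helper78.DT Pool.Agent.Helper51.ZP Pool.Agent.Helper65.CS
open Pool.Agent.Helper52.SM
open Pool.Agent.Helper52.SX (lossT)
open Pool.Agent.Helper78
open scoped Classical

theorem lt_two_pow_lg (N : ℕ) : N < 2 ^ lg N := by
  have h1 : N < 2 ^ (Nat.log 2 N + 1) := Nat.lt_pow_succ_log_self (by norm_num) N
  refine h1.trans_le (Nat.pow_le_pow_right (by norm_num) ?_)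
  unfold lg
  omega

theorem stM_succ (g : List Bool × List (ℕ × Bool) × ℕ → ℕ) (x : List Bool) (n N k : ℕ) :
    stM g x n N (k + 1) = stepM g x (bb (lg N)) (MM N) n N (stM g x n N k) := by
  unfold Pool.Agent.Helper52.SM.stM
  rw [Function.iterate_succ_apply']

/-- **Packet LPM.** -/
theorem lpm (stm : StmStmt) (num : NumStmt) (itr : ItrStmt) : LpmStmt := by
  have heps : ∀ X m T q1 : ℕ, (0 : ℝ) < 1 / (4 * ((X : ℝ) + m + T) + 4) ^ q1 := by
    intro X m T q1
    positivity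
  intro A c e k g hA hg
  obtain ⟨q, q1, L0, hq, hL0⟩ := num c e k
  refine ⟨q, L0, hq, ?_⟩
  intro x hL
  have hε := heps x.length (A.m x) (A.T x) q1
  have hr : A.r x ^ (e + 1) ≤ lg x.length ^ e := hA x
  have hall := hL0 x.length (A.m x) (A.T x) (A.r x) hr hL
  obtain ⟨N, hN⟩ : ∃ N, (4 * (x.length + A.m x + A.T x) + 4) ^ q = N := ⟨_, rfl⟩
  have hNN : NN A q x = N := hN
  rw [hN] at hall
  rw [hNN]
  obtain ⟨h1, h2, h3, h4, h5, h6, h7, h8⟩ := hall
  have hb : 1 ≤ bb (lg N) := by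
    unfold bb
    omega
  have hs0 : stM g x (A.m x) N 0 = [] := rfl
  have one : ∀ s : List (ℕ × Bool), (s.map Prod.fst).Nodup → (∀ p ∈ s, p.1 < A.m x) →
      ((stepM g x (bb (lg N)) (MM N) (A.m x) N s).map Prod.fst).Nodup ∧
      (∀ p ∈ stepM g x (bb (lg N)) (MM N) (A.m x) N s, p.1 < A.m x) ∧
      phi A c x s ≤ phi A c x (stepM g x (bb (lg N)) (MM N) (A.m x) N s) +
        5 / (lg N : ℝ) ^ (k + 4) ∧
      (al (A.m x) (stepM g x (bb (lg N)) (MM N) (A.m x) N s)).length * 2 ^ (bb (lg N) + 1) +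
        (al (A.m x) s).length ≤ (al (A.m x) s).length * 2 ^ (bb (lg N) + 1) :=
    fun s hs1 hs2 => stm A c (k + 4) g hg x N (2 * c * lg N) (bb (lg N)) (uu (lg N)) (k + 7)
      (MM N) _ s hs1 hs2 h1 h3 hε h4 h5 (by omega) hb h6 h7
  have key : ∀ j : ℕ, ((stM g x (A.m x) N j).map Prod.fst).Nodup ∧
      (∀ p ∈ stM g x (A.m x) N j, p.1 < A.m x) ∧
      phi A c x [] ≤ phi A c x (stM g x (A.m x) N j) +
        (j : ℝ) * (5 / (lg N : ℝ) ^ (k + 4)) := by
    intro j
    induction j with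
    | zero =>
      rw [hs0]
      exact ⟨List.nodup_nil, fun p hp => absurd hp List.not_mem_nil, by simp⟩
    | succ j ih =>
      obtain ⟨i1, i2, i3⟩ := ih
      obtain ⟨s1, s2, s3, -⟩ := one _ i1 i2
      rw [stM_succ]
      refine ⟨s1, s2, ?_⟩
      rw [Nat.cast_add, Nat.cast_one, add_mul, one_mul]
      linarith
  have hal : ∀ j : ℕ, (al (A.m x) (stM g x (A.m x) N (j + 1))).length * 2 ^ (bb (lg N) + 1) +
      (al (A.m x) (stM g x (A.m x) N j)).length ≤
        (al (A.m x) (stM g x (A.m x) N j)).length * 2 ^ (bb (lg N) + 1) := by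
    intro j
    obtain ⟨i1, i2, -⟩ := key j
    rw [stM_succ]
    exact (one _ i1 i2).2.2.2
  have ha0 : (al (A.m x) (stM g x (A.m x) N 0)).length < 2 ^ lg N := by
    have h9 : (al (A.m x) (stM g x (A.m x) N 0)).length ≤ A.m x := by
      unfold al
      refine (List.length_filter_le _ _).trans ?_
      rw [List.length_range]
    exact lt_of_le_of_lt (h9.trans h1) (lt_two_pow_lg N)
  have hz' := itr (fun j => (al (A.m x) (stM g x (A.m x) N j)).length) (2 ^ (bb (lg N) + 1))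
    (lg N) (Nat.one_le_two_pow) (by unfold lg; omega) hal ha0
  have hTT : TT (lg N) = 2 ^ (bb (lg N) + 1) * lg N := by
    unfold TT
    ring
  obtain ⟨k1, k2, k3⟩ := key (TT (lg N))
  refine ⟨h1, h2, k1, k2, ?_, ?_⟩
  · rw [hTT]
    exact List.eq_nil_of_length_eq_zero hz'
  · linarith

end Pool.Agent.Helper96.SM
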